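import Pool.Agent.J6H17.RF.Stm

/-!
# RF-SPOLY: substitution into a fixed formula is computable in polynomial time
-/

set_option autoImplicit false

namespace Pool.Agent.J6H97.RFSpoly

open Pool.Agent.NPC Pool.Agent.H628R3.RO Pool.Agent.J6H17.RF

variable {α : Type} [TEnc α]

theorem tag {β : Type} [TEnc β] {f : α → β} {t : α → T} (n : ℕ) (ht : Poly t)
    (h : ∀ a, toT (f a) = T.node (toT n) (t a)) : Poly f :=
  Poly.of_toT (Poly.congr (Poly.node (Pool.Agent.NPC.Poly.const (toT n)) ht) fun a => (h a).symm)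

theorem tag2 {β γ δ : Type} [TEnc β] [TEnc γ] [TEnc δ] {f : α → β} {g : α → γ} {h : α → δ} (n : ℕ)
    (hg : Poly g) (hh : Poly h)
    (e : ∀ a, toT (f a) = T.node (toT n) (T.node (toT (g a)) (toT (h a)))) : Poly f :=
  tag n (Poly.node hg.toT' hh.toT') e

theorem tm_var {f : α → ℕ} (hf : Poly f) : Poly (fun a => Tm.var (f a)) :=
  tag 1 hf.toT' fun _ => rfl

theorem tm_zero : Poly (fun _ : α => Tm.zero) := Pool.Agent.NPC.Poly.const _

theorem tm_succ {f : α → Tm} (hf : Poly f) : Poly (fun a => Tm.succ (f a)) :=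
  tag 2 hf.toT' fun _ => rfl

theorem tm_half {f : α → Tm} (hf : Poly f) : Poly (fun a => Tm.half (f a)) :=
  tag 3 hf.toT' fun _ => rfl

theorem tm_len {f : α → Tm} (hf : Poly f) : Poly (fun a => Tm.len (f a)) :=
  tag 4 hf.toT' fun _ => rfl

theorem tm_add {f g : α → Tm} (hf : Poly f) (hg : Poly g) : Poly (fun a => Tm.add (f a) (g a)) :=
  tag2 5 hf hg fun _ => rfl

theorem tm_mul {f g : α → Tm} (hf : Poly f) (hg : Poly g) : Poly (fun a => Tm.mul (f a) (g a)) :=
  tag2 6 hf hg fun _ => rfl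

theorem tm_smash {f g : α → Tm} (hf : Poly f) (hg : Poly g) :
    Poly (fun a => Tm.smash (f a) (g a)) :=
  tag2 7 hf hg fun _ => rfl

theorem fm_eq {f g : α → Tm} (hf : Poly f) (hg : Poly g) : Poly (fun a => Fm.eq (f a) (g a)) :=
  tag2 1 hf hg fun _ => rfl

theorem fm_le {f g : α → Tm} (hf : Poly f) (hg : Poly g) : Poly (fun a => Fm.le (f a) (g a)) :=
  tag2 2 hf hg fun _ => rfl

theorem fm_orc {f : α → Tm} (hf : Poly f) : Poly (fun a => Fm.orc (f a)) :=
  tag 3 hf.toT' fun _ => rfl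

theorem fm_imp {f g : α → Fm} (hf : Poly f) (hg : Poly g) : Poly (fun a => (f a).imp (g a)) :=
  tag2 4 hf hg fun _ => rfl

theorem fm_all {f : α → Fm} (x : ℕ) (hf : Poly f) : Poly (fun a => Fm.all x (f a)) :=
  tag2 5 (Pool.Agent.NPC.Poly.const x) hf fun _ => rfl

theorem tm_sub (t : Tm) (σ : α → ℕ → Tm) (hσ : ∀ i, Poly (fun a => σ a i)) :
    Poly (fun a => t.sub (σ a)) := by
  induction t with
  | var i => exact hσ i
  | zero => exact tm_zero
  | succ t ih => exact tm_succ ih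
  | half t ih => exact tm_half ih
  | len t ih => exact tm_len ih
  | add s t ihs iht => exact tm_add ihs iht
  | mul s t ihs iht => exact tm_mul ihs iht
  | smash s t ihs iht => exact tm_smash ihs iht

theorem fm_sub (φ : Fm) : ∀ (σ : α → ℕ → Tm), (∀ i, Poly (fun a => σ a i)) →
    Poly (fun a => φ.sub (σ a)) := by
  induction φ with
  | bot => intro σ _; exact Pool.Agent.NPC.Poly.const _
  | eq s t => intro σ hσ; exact fm_eq (tm_sub s σ hσ) (tm_sub t σ hσ)
  | le s t => intro σ hσ; exact fm_le (tm_sub s σ hσ) (tm_sub t σ hσ)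
  | orc t => intro σ hσ; exact fm_orc (tm_sub t σ hσ)
  | imp φ ψ ih1 ih2 => intro σ hσ; exact fm_imp (ih1 σ hσ) (ih2 σ hσ)
  | all x φ ih =>
    intro σ hσ
    refine fm_all x (ih (fun a => Function.update (σ a) x (Tm.var x)) fun i => ?_)
    by_cases h : i = x
    · subst h
      exact Poly.congr (Pool.Agent.NPC.Poly.const (Tm.var i)) fun a => (Function.update_self i (Tm.var i) (σ a)).symm
    · exact Poly.congr (hσ i) fun a => (Function.update_of_ne h (Tm.var x) (σ a)).symm

theorem main : S_SPOLY := by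
  refine ⟨?_, ?_, ?_, ?_, ?_, ?_, ?_⟩
  · intro α _ φ σ hσ
    exact fm_sub φ σ hσ
  · intro α _ f g hf hg
    exact fm_imp hf hg
  · intro α _ f x hf
    exact fm_all x hf
  · intro α _ f g hf hg
    exact fm_eq hf hg
  · intro α _ f g hf hg
    exact fm_le hf hg
  · intro α _ f hf
    exact tm_len hf
  · intro α _ f hf
    exact tm_var hf

end Pool.Agent.J6H97.RFSpoly
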